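import Pool.Agent.H752.NX.Stubs
import Pool.Agent.H620R2.Gauge.A2
import Pool.Agent.H620R2.Gauge.C
import Pool.Agent.H620R2.GaugeR.R4
import Pool.Agent.H752.GE.N5

/-!
# X9: the parity language is in `NEXP`
-/

set_option autoImplicit false

namespace Pool.Agent.H752.NX

open Pool.Agent.NPC Pool.Agent.H620R2.Gauge Pool.Agent.H752.GE Finset

namespace X9

/-- the questions -/
def Q (y : List Bool) : List (List Bool) :=
  (List.range (unpair y).1.length).map (fun i =>
    (unpair y).2 ++ bitsOf (unpair y).2.length i)

/-- the verdict -/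
def H (s : List Bool × List Bool) : List Bool :=
  [decide ((unpair s.1).1.length = 2 ^ (unpair s.1).2.length) &&
    decide ((s.2.filter (fun b => b)).length % 2 = 1)]

theorem poly_Q : Poly Q := by
  have hw : Poly (fun y : List Bool => (unpair y).1) := Poly.fst poly_unpair
  have hx : Poly (fun y : List Bool => (unpair y).2) := Poly.snd poly_unpair
  unfold Q
  refine NPC.Poly.map (F := fun (y : List Bool) (i : ℕ) =>
    (unpair y).2 ++ bitsOf (unpair y).2.length i)
    (UPoly.range (UPoly.length hw)) ?_
  have hx' : Poly (fun p : List Bool × ℕ => (unpair p.1).2) := hx.comp (Poly.fst Poly.id)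
  exact Poly.append hx' (r4_poly_bitsOf (UPoly.length hx') (Poly.snd Poly.id))

theorem poly_H : Poly H := by
  have hx : Poly (fun s : List Bool × List Bool => (unpair s.1).2) :=
    (Poly.snd poly_unpair).comp (Poly.fst Poly.id)
  have hw : Poly (fun s : List Bool × List Bool => (unpair s.1).1) :=
    (Poly.fst poly_unpair).comp (Poly.fst Poly.id)
  unfold H
  refine Poly.cons (Poly.and (Poly.decide_eq (Poly.length hw) (N5.poly_pow hx))
    (Poly.decide_eq (Poly.mod (Poly.length ?_) (NPC.Poly.const 2)) (NPC.Poly.const 1)))
    (NPC.Poly.const [])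
  exact Poly.filter (p := fun (_ : List Bool × List Bool) (b : Bool) => b) (Poly.snd Poly.id)
    (Poly.snd Poly.id)

theorem count (f : ℕ → Bool) (n : ℕ) :
    (((List.range n).map f).filter (fun b => b)).length =
      ((Finset.range n).filter (fun j => f j = true)).card := by
  induction n with
  | zero => simp
  | succ n ih =>
    rw [List.range_succ, List.map_append, List.filter_append, List.length_append, ih,
      Finset.range_add_one, Finset.filter_insert]
    by_cases h : f n = true
    · rw [if_pos h, Finset.card_insert_of_notMem (by simp)]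
      simp [h]
    · rw [if_neg h]
      simp [h]

end X9

theorem t_par : St_par := by
  intro A
  refine ⟨fun y => X9.H (y, (X9.Q y).map A), Polynomial.X, IsFP.tt X9.poly_Q X9.poly_H,
    fun x => ?_⟩
  have key : ∀ w : List Bool, X9.H (pairBits w x, (X9.Q (pairBits w x)).map A) = [true] ↔
      (w.length = 2 ^ x.length ∧ x ∈ parLang A) := by
    intro w
    unfold X9.H X9.Q parLang
    simp only [unpair_pairBits, List.cons.injEq, and_true, Bool.and_eq_true, decide_eq_true_eq,
      List.map_map, Set.mem_setOf_eq]
    rw [X9.count]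
    constructor
    · rintro ⟨h1, h2⟩
      refine ⟨h1, ?_⟩
      rw [h1] at h2
      rw [Nat.odd_iff]
      exact h2
    · rintro ⟨h1, h2⟩
      refine ⟨h1, ?_⟩
      rw [h1]
      rw [Nat.odd_iff] at h2
      exact h2
  constructor
  · intro hx
    refine ⟨List.replicate (2 ^ x.length) true, ?_, ?_⟩
    · rw [List.length_replicate, Polynomial.eval_X]
    · rw [key]
      exact ⟨List.length_replicate, hx⟩
  · rintro ⟨w, _, hw⟩
    rw [key] at hw
    exact hw.2

end Pool.Agent.H752.NX
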