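import Pool.Agent.H752.NX.Stubs
import Pool.Agent.H620R2.Gauge.A2
import Pool.Agent.H620R2.Gauge.C

/-!
# X5: the search oracle is in `NP`
-/

set_option autoImplicit false

namespace Pool.Agent.H752.NX

open Pool.Agent.NPC Pool.Agent.H620R2.Gauge Pool.Agent.H752.GE Finset

namespace X5

/-- the input of the search -/
def xx (y : List Bool) : List Bool := (unpair (unpair y).2).1

/-- the prefix -/
def pp (y : List Bool) : List Bool := (unpair (unpair y).2).2

/-- the rest of the string -/
def vv (y : List Bool) : List Bool := (unpair (unpair y).1).1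

/-- the other string -/
def zz (y : List Bool) : List Bool := (unpair (unpair y).1).2

/-- the question -/
def Q (R : ℕ → Polynomial ℕ) (e : ℕ) (y : List Bool) : List (List Bool) :=
  [posX R (e, xx y) (pp y ++ vv y) (zz y)]

/-- the verdict -/
noncomputable def H (S : ℕ → Polynomial ℕ) (e : ℕ) (s : List Bool × List Bool) : List Bool :=
  [decide (pairBits (xx s.1) (pp s.1) = (unpair s.1).2) &&
    (decide ((pp s.1 ++ vv s.1).length = 4 * (S e).eval (xx s.1).length + 1) &&
      (decide ((zz s.1).length = 6 * (S e).eval (xx s.1).length + 1) &&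
        s.2.any (fun b => b)))]

theorem poly_xx : Poly xx := Poly.fst (poly_unpair.comp (Poly.snd poly_unpair))

theorem poly_pp : Poly pp := Poly.snd (poly_unpair.comp (Poly.snd poly_unpair))

theorem poly_vv : Poly vv := Poly.fst (poly_unpair.comp (Poly.fst poly_unpair))

theorem poly_zz : Poly zz := Poly.snd (poly_unpair.comp (Poly.fst poly_unpair))

theorem poly_Q (R : ℕ → Polynomial ℕ) (e : ℕ) : Poly (Q R e) := by
  unfold Q posX
  exact Poly.cons ((CC.poly_code R e).comp (H622R2.poly_pairBits poly_xx
    (H622R2.poly_pairBits (Poly.append poly_pp poly_vv) poly_zz))) (NPC.Poly.const [])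

theorem poly_H (S : ℕ → Polynomial ℕ) (e : ℕ) : Poly (H S e) := by
  have h1 : Poly (fun s : List Bool × List Bool => s.1) := Poly.fst Poly.id
  have hx : Poly (fun s : List Bool × List Bool => xx s.1) := poly_xx.comp h1
  have hp : Poly (fun s : List Bool × List Bool => pp s.1) := poly_pp.comp h1
  have hv : Poly (fun s : List Bool × List Bool => vv s.1) := poly_vv.comp h1
  have hz : Poly (fun s : List Bool × List Bool => zz s.1) := poly_zz.comp h1
  have hq : Poly (fun s : List Bool × List Bool => (unpair s.1).2) :=
    (Poly.snd poly_unpair).comp h1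
  have hS : UPoly (fun s : List Bool × List Bool => (S e).eval (xx s.1).length) :=
    (UPoly.length hx).eval (S e)
  have h4 : Poly (fun s : List Bool × List Bool => 4 * (S e).eval (xx s.1).length + 1) :=
    (((UPoly.const 4).mul hS).add (UPoly.const 1)).toPoly
  have h6 : Poly (fun s : List Bool × List Bool => 6 * (S e).eval (xx s.1).length + 1) :=
    (((UPoly.const 6).mul hS).add (UPoly.const 1)).toPoly
  unfold H
  refine Poly.cons (Poly.and (Poly.decide_eq (H622R2.poly_pairBits hx hp) hq)
    (Poly.and (Poly.decide_eq (Poly.length (Poly.append hp hv)) h4)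
      (Poly.and (Poly.decide_eq (Poly.length hz) h6) ?_))) (NPC.Poly.const [])
  exact Poly.any (p := fun (_ : List Bool × List Bool) (b : Bool) => b) (Poly.snd Poly.id)
    (Poly.snd Poly.id)

end X5

theorem t_srch : St_srch := by
  classical
  intro R S e A
  refine ⟨fun y => X5.H S e (y, (X5.Q R e y).map A),
    Polynomial.C 14 * S e + Polynomial.C 4, IsFP.tt (X5.poly_Q R e) (X5.poly_H S e),
    fun q => ?_⟩
  have key : ∀ w : List Bool, X5.H S e (pairBits w q, (X5.Q R e (pairBits w q)).map A) = [true] ↔
      (pairBits (unpair q).1 (unpair q).2 = q ∧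
        ((unpair q).2 ++ (unpair w).1).length = lX S (e, (unpair q).1) ∧
        (unpair w).2.length = rX S (e, (unpair q).1) ∧
        A (posX R (e, (unpair q).1) ((unpair q).2 ++ (unpair w).1) (unpair w).2) = true) := by
    intro w
    unfold X5.H X5.Q X5.xx X5.pp X5.vv X5.zz lX rX
    simp only [unpair_pairBits, List.cons.injEq, and_true, Bool.and_eq_true, decide_eq_true_eq,
      List.map_cons, List.map_nil, List.any_cons, List.any_nil, Bool.or_false]
  constructor
  · intro hq
    have hq' : ∃ x p v z : List Bool, q = pairBits x p ∧ (p ++ v).length = lX S (e, x) ∧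
        z.length = rX S (e, x) ∧ A (posX R (e, x) (p ++ v) z) = true := by
      change srch R S e A q = true at hq
      unfold srch at hq
      rwa [decide_eq_true_eq] at hq
    obtain ⟨x, p, v, z, rfl, h1, h2, h3⟩ := hq'
    refine ⟨pairBits v z, ?_, ?_⟩
    · have h4 : x.length ≤ (pairBits x p).length := by
        rw [Pool.Agent.H620R2.Gauge.length_pairBits]
        omega
      have h5 := eval_mono (S e) h4
      rw [Pool.Agent.H620R2.Gauge.length_pairBits v z]
      unfold lX at h1
      unfold rX at h2
      simp only [List.length_append] at h1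
      simp only at h2
      simp only [Polynomial.eval_add, Polynomial.eval_mul, Polynomial.eval_C]
      omega
    · rw [key]
      simp only [unpair_pairBits]
      exact ⟨trivial, h1, h2, h3⟩
  · rintro ⟨w, _, hw⟩
    rw [key] at hw
    obtain ⟨h0, h1, h2, h3⟩ := hw
    change srch R S e A q = true
    unfold srch
    rw [decide_eq_true_eq]
    exact ⟨(unpair q).1, (unpair q).2, (unpair w).1, (unpair w).2, h0.symm, h1, h2, h3⟩

end Pool.Agent.H752.NX
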